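import Pool.Agent.W2helper26.DL.Stm
import Pool.Agent.W2helper65.PL.Prog

/-!
# Project DL, piece SIM

Simulation of a register machine on the padded input.
-/

set_option autoImplicit false

namespace Pool.Agent.W2helper93.DL

open Pool.Agent.NPC Pool.Agent.H620R2.Gauge Pool.Agent.W2helper86.PL Pool.Agent.W2helper65.PL
open Pool.Agent.W2helper26.DL (padw P_sim)

/-! ### The translation of the instructions -/

/-- the first line of the translation of an instruction -/
def f1 (o : ℕ) : Ins → Ins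
  | .set r n => .set (r + 8) n
  | .add r s t => .add (r + 8) (s + 8) (t + 8)
  | .sub r s t => .sub (r + 8) (s + 8) (t + 8)
  | .half r s => .half (r + 8) (s + 8)
  | .jzero r l => .jzero (r + 8) (o + 2 * l)
  | .jbit r l => .jbit (r + 8) (o + 2 * l)
  | .jend r _ => .sub 4 6 (r + 8)
  | .jabit r l => .jabit (r + 8) (o + 2 * l)
  | .jaend r l => .jaend (r + 8) (o + 2 * l)
  | .put b => .put b
  | .ask l => .ask (o + 2 * l)
  | .guess _ => .halt false
  | .halt b => .halt b

/-- the second line of the translation of an instruction -/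
def f2 (o : ℕ) : Ins → Ins
  | .jend _ l => .jzero 4 (o + 2 * l)
  | _ => .set 0 0

/-- the translation of a program -/
def body (o : ℕ) (P : List Ins) : List Ins := P.flatMap fun i => [f1 o i, f2 o i]

theorem body_get (o : ℕ) (P : List Ins) (j : ℕ) :
    (body o P)[2 * j]? = P[j]?.map (f1 o) ∧ (body o P)[2 * j + 1]? = P[j]?.map (f2 o) := by
  induction P generalizing j with
  | nil => simp [body]
  | cons a P ih =>
    cases j with
    | zero => simp [body]
    | succ j =>
      have h := ih j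
      rw [show 2 * (j + 1) = 2 * j + 1 + 1 by ring]
      simpa [body] using h

theorem guess_notMem_body (o l : ℕ) (P : List Ins) : Ins.guess l ∉ body o P := by
  intro h
  obtain ⟨i, -, hi⟩ := List.mem_flatMap.1 h
  simp only [List.mem_cons, List.not_mem_nil, or_false] at hi
  rcases hi with hi | hi <;> cases i <;> simp [f1, f2] at hi

section Sim

variable {P P' : List Ins} {A : Oracle} {x : List Bool} {S o m : ℕ} {q : List Bool}
  {ρ ρ' : ℕ → ℕ}

theorem line (hP : At P' o (body o P)) {j : ℕ} {i : Ins} (hi : P[j]? = some i) :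
    P'[o + 2 * j]? = some (f1 o i) ∧ P'[o + 2 * j + 1]? = some (f2 o i) := by
  obtain ⟨h1, h2⟩ := body_get o P j
  rw [hi] at h1 h2
  simp only [Option.map_some] at h1 h2
  have l2 := (List.getElem?_eq_some_iff.1 h2).1
  have l1 : 2 * j < (body o P).length := by omega
  exact ⟨by rw [hP _ l1, h1], by rw [Nat.add_assoc, hP _ l2, h2]⟩

/-- The registers of the simulation: those of the simulated program are shifted by `8`, and
register `6` is the length of the simulated input. -/
structure Sm (m : ℕ) (ρ ρ' : ℕ → ℕ) : Prop where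
  hi : ∀ r, ρ' (r + 8) = ρ r
  six : ρ' 6 = m

theorem Sm.upd (h : Sm m ρ ρ') (r v : ℕ) :
    Sm m (Function.update ρ r v) (Function.update ρ' (r + 8) v) := by
  refine ⟨fun s => ?_, ?_⟩
  · by_cases hs : s = r
    · subst hs
      rw [Function.update_self, Function.update_self]
    · rw [Function.update_of_ne (by omega), Function.update_of_ne hs, h.hi]
  · rw [Function.update_of_ne (by omega), h.six]

theorem Sm.low (h : Sm m ρ ρ') {r : ℕ} (v : ℕ) (hr : r < 6) :
    Sm m ρ (Function.update ρ' r v) := by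
  refine ⟨fun s => ?_, ?_⟩
  · rw [Function.update_of_ne (by omega), h.hi]
  · rw [Function.update_of_ne (by omega), h.six]

theorem bd_upd (h : Bd S ρ) (r : ℕ) {v : ℕ} (hv : v < 2 ^ S) : Bd S (Function.update ρ r v) := by
  intro s
  by_cases hs : s = r
  · subst hs
    rwa [Function.update_self]
  · rw [Function.update_of_ne hs]
    exact h s

/-- the line `set 0 0` -/
theorem nop {j : ℕ} (L2 : P'[o + 2 * j + 1]? = some (.set 0 0)) (h : Sm m ρ ρ') (hb : Bd S ρ') :
    ∃ ρ'', Rn P' A x S (⟨o + 2 * j + 1, ρ'⟩, q) (⟨o + 2 * (j + 1), ρ''⟩, q) ∧ Sm m ρ ρ'' ∧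
      Bd S ρ'' :=
  ⟨_, Rn.one' L2 rfl (bd_upd hb 0 (Nat.two_pow_pos S)), h.low 0 (by norm_num),
    bd_upd hb 0 (Nat.two_pow_pos S)⟩

theorem sim_upd {j r v : ℕ} {i : Ins} (L1 : P'[o + 2 * j]? = some i)
    (L2 : P'[o + 2 * j + 1]? = some (.set 0 0)) (h : Sm m ρ ρ') (hb : Bd S ρ')
    (he : i.exec x [] ⟨o + 2 * j, ρ'⟩ =
      some (⟨o + 2 * j + 1, Function.update ρ' (r + 8) v⟩, []))
    (hv : Bd S (Function.update ρ r v)) :
    ∃ ρ'', Rn P' A x S (⟨o + 2 * j, ρ'⟩, q) (⟨o + 2 * (j + 1), ρ''⟩, q) ∧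
      Sm m (Function.update ρ r v) ρ'' ∧ Bd S ρ'' := by
  have hv' : v < 2 ^ S := by
    have := hv r
    rwa [Function.update_self] at this
  have hb1 := bd_upd hb (r + 8) hv'
  obtain ⟨ρ'', h1, h2, h3⟩ := nop (A := A) (x := x) (q := q) L2 (h.upd r v) hb1
  exact ⟨ρ'', (Rn.one' L1 he hb1).trans h1, h2, h3⟩

theorem sim_jmp {j l : ℕ} {i : Ins} (L1 : P'[o + 2 * j]? = some i)
    (L2 : P'[o + 2 * j + 1]? = some (.set 0 0)) (h : Sm m ρ ρ') (hb : Bd S ρ') (b : Prop)
    [Decidable b] (he : i.exec x [] ⟨o + 2 * j, ρ'⟩ =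
      some (⟨if b then o + 2 * l else o + 2 * j + 1, ρ'⟩, [])) :
    ∃ ρ'', Rn P' A x S (⟨o + 2 * j, ρ'⟩, q) (⟨o + 2 * (if b then l else j + 1), ρ''⟩, q) ∧
      Sm m ρ ρ'' ∧ Bd S ρ'' := by
  by_cases hbb : b
  · rw [if_pos hbb] at he ⊢
    exact ⟨ρ', Rn.one' L1 he hb, h, hb⟩
  · rw [if_neg hbb] at he ⊢
    obtain ⟨ρ'', h1, h2, h3⟩ := nop (A := A) (x := x) (q := q) L2 h hb
    exact ⟨ρ'', (Rn.one' L1 he hb).trans h1, h2, h3⟩

theorem sim_step {y : List Bool} (hP : At P' o (body o P)) (hg : ∀ l, Ins.guess l ∉ P)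
    (hy : ∀ i, y.getD i false = x.getD i false) (hm : y.length < 2 ^ S)
    {c c' : State × List Bool} (hs : Step P A y [] c c') (h : Sm y.length c.1.reg ρ')
    (hb : Bd S ρ') (hb' : Bd S c'.1.reg) :
    ∃ ρ'', Rn P' A x S (⟨o + 2 * c.1.pc, ρ'⟩, c.2) (⟨o + 2 * c'.1.pc, ρ''⟩, c'.2) ∧
      Sm y.length c'.1.reg ρ'' ∧ Bd S ρ'' := by
  cases hs with
  | @plain σ τ q w i h1 h2 =>
    obtain ⟨L1, L2⟩ := line hP h1
    cases i with
    | set r n =>
      simp only [Ins.exec, Option.some.injEq, Prod.mk.injEq] at h2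
      obtain ⟨rfl, rfl⟩ := h2
      rw [List.append_nil]
      exact sim_upd L1 L2 h hb rfl hb'
    | add r s t =>
      simp only [Ins.exec, Option.some.injEq, Prod.mk.injEq] at h2
      obtain ⟨rfl, rfl⟩ := h2
      rw [List.append_nil]
      refine sim_upd L1 L2 h hb ?_ hb'
      simp only [f1, Ins.exec, h.hi]
    | sub r s t =>
      simp only [Ins.exec, Option.some.injEq, Prod.mk.injEq] at h2
      obtain ⟨rfl, rfl⟩ := h2
      rw [List.append_nil]
      refine sim_upd L1 L2 h hb ?_ hb'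
      simp only [f1, Ins.exec, h.hi]
    | half r s =>
      simp only [Ins.exec, Option.some.injEq, Prod.mk.injEq] at h2
      obtain ⟨rfl, rfl⟩ := h2
      rw [List.append_nil]
      refine sim_upd L1 L2 h hb ?_ hb'
      simp only [f1, Ins.exec, h.hi]
    | jzero r l =>
      simp only [Ins.exec, Option.some.injEq, Prod.mk.injEq] at h2
      obtain ⟨rfl, rfl⟩ := h2
      rw [List.append_nil]
      refine sim_jmp (l := l) L1 L2 h hb (σ.reg r = 0) ?_
      simp only [f1, Ins.exec, h.hi]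
    | jbit r l =>
      simp only [Ins.exec, Option.some.injEq, Prod.mk.injEq] at h2
      obtain ⟨rfl, rfl⟩ := h2
      rw [List.append_nil]
      refine sim_jmp (l := l) L1 L2 h hb (y.getD (σ.reg r) false = true) ?_
      simp only [f1, Ins.exec, h.hi, hy]
    | jend r l =>
      simp only [Ins.exec, Option.some.injEq, Prod.mk.injEq] at h2
      obtain ⟨rfl, rfl⟩ := h2
      rw [List.append_nil]
      have hb1 : Bd S (Function.update ρ' 4 (y.length - σ.reg r)) := bd_upd hb 4 (by omega)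
      refine ⟨Function.update ρ' 4 (y.length - σ.reg r), (Rn.one' L1 (pc' := o + 2 * σ.pc + 1)
        (ρ' := Function.update ρ' 4 (y.length - σ.reg r)) ?_ hb1).trans
        (Rn.one' L2 ?_ hb1), h.low _ (by norm_num), hb1⟩
      · simp only [f1, Ins.exec, h.hi, h.six]
      · simp only [f2, Ins.exec, Function.update_self, Option.some.injEq, Prod.mk.injEq,
          State.mk.injEq, and_true]
        by_cases hl : y.length ≤ σ.reg r
        · rw [if_pos hl, if_pos (by omega)]
        · rw [if_neg hl, if_neg (by omega)]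
          ring
    | jabit r l =>
      simp only [Ins.exec, Option.some.injEq, Prod.mk.injEq] at h2
      obtain ⟨rfl, rfl⟩ := h2
      rw [List.append_nil]
      refine sim_jmp (l := l) L1 L2 h hb (([] : List Bool).getD (σ.reg r) false = true) ?_
      simp only [f1, Ins.exec, h.hi]
    | jaend r l =>
      simp only [Ins.exec, Option.some.injEq, Prod.mk.injEq] at h2
      obtain ⟨rfl, rfl⟩ := h2
      rw [List.append_nil]
      refine sim_jmp (l := l) L1 L2 h hb (([] : List Bool).length ≤ σ.reg r) ?_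
      simp only [f1, Ins.exec, h.hi]
    | put b =>
      simp only [Ins.exec, Option.some.injEq, Prod.mk.injEq] at h2
      obtain ⟨rfl, rfl⟩ := h2
      obtain ⟨ρ'', h3, h4, h5⟩ := nop (A := A) (x := x) (q := q ++ [b]) L2 h hb
      exact ⟨ρ'', (Rn.one (i := .put b) L1 rfl hb).trans h3, h4, h5⟩
    | ask l => simp [Ins.exec] at h2
    | guess l => simp [Ins.exec] at h2
    | halt b => simp [Ins.exec] at h2
  | @ask σ q l h1 =>
    obtain ⟨L1, L2⟩ := line hP h1
    by_cases hA : A q = true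
    · simp only [if_pos hA] at hb' ⊢
      refine ⟨ρ', Relation.ReflTransGen.single ⟨?_, hb⟩, h, hb⟩
      have := Step.ask (A := A) (x := x) (a := []) (σ := ⟨o + 2 * σ.pc, ρ'⟩) (q := q) L1
      simpa only [if_pos hA] using this
    · simp only [if_neg hA] at hb' ⊢
      obtain ⟨ρ'', h3, h4, h5⟩ := nop (A := A) (x := x) (q := []) L2 h hb
      refine ⟨ρ'', Rn.trans (Relation.ReflTransGen.single ⟨?_, hb⟩) h3, h4, h5⟩
      have := Step.ask (A := A) (x := x) (a := []) (σ := ⟨o + 2 * σ.pc, ρ'⟩) (q := q) L1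
      simpa only [if_neg hA] using this
  | stay h1 => exact absurd (List.mem_of_getElem? h1) (hg _)
  | jump h1 => exact absurd (List.mem_of_getElem? h1) (hg _)

theorem sim_run {y : List Bool} (hP : At P' o (body o P)) (hg : ∀ l, Ins.guess l ∉ P)
    (hy : ∀ i, y.getD i false = x.getD i false) (hm : y.length < 2 ^ S)
    (hin : ∀ c, Reach P A y [] c → Bd S c.1.reg)
    {c : State × List Bool} (hs : Reach P A y [] c) (h : Sm y.length (fun _ => 0) ρ')
    (hb : Bd S ρ') :
    ∃ ρ'', Rn P' A x S (⟨o, ρ'⟩, []) (⟨o + 2 * c.1.pc, ρ''⟩, c.2) ∧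
      Sm y.length c.1.reg ρ'' ∧ Bd S ρ'' := by
  induction hs with
  | refl => exact ⟨ρ', Rn.refl _, h, hb⟩
  | tail h1 h2 ih =>
    obtain ⟨ρ1, h3, h4, h5⟩ := ih
    obtain ⟨ρ2, h6, h7, h8⟩ := sim_step (x := x) hP hg hy hm h2 h4 h5
      (hin _ (Relation.ReflTransGen.tail h1 h2))
    exact ⟨ρ2, h3.trans h6, h7, h8⟩

end Sim

/-! ### The program -/

/-- the first lines: they compute the length of the padded input in register `6` -/
def pro (k D : ℕ) (b : List Ins) : List Ins :=
  [.set 7 1] ++ (cnt 1 ++ (siz 4 ++ ([.set 3 D] ++ (muls 10 k ++ (pow (10 + 7 * k) ++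
    (cnt (15 + 7 * k) ++ ([.add 6 6 1] ++ b)))))))

theorem guess_notMem_pro (k D l : ℕ) (b : List Ins) (hb : Ins.guess l ∉ b) :
    Ins.guess l ∉ pro k D b := by
  simp only [pro, List.mem_append, not_or]
  exact ⟨by simp, by simp [cnt], by simp [siz], by simp, guess_notMem_muls _ _ _,
    by simp [pow], by simp [cnt], by simp, hb⟩

theorem run_pro (k D S : ℕ) (A : Oracle) (x : List Bool) (b P : List Ins) (hPb : P = pro k D b)
    (hS : D * (1 + Nat.size x.length) ^ k + Nat.size x.length + 2 ≤ S) :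
    At P (19 + 7 * k) b ∧ ∃ ρ, Rn P A x S (⟨0, fun _ => 0⟩, []) (⟨19 + 7 * k, ρ⟩, []) ∧
      Sm (x.length + 2 ^ (D * (Nat.size x.length + 1) ^ k)) (fun _ => 0) ρ ∧ Bd S ρ := by
  have H : At P 0 P := fun j _ => by rw [Nat.zero_add]
  rw [hPb] at H
  nth_rewrite 2 [pro] at H
  rw [← hPb] at H
  have H0 := H.left
  have H1 := H.right' (o' := 1) rfl
  have H2 := H1.right' (o' := 4) rfl
  have H3 := H2.right' (o' := 9) rfl
  have H4 := H3.right' (o' := 10) rfl
  have H5 := H4.right' (o' := 10 + 7 * k) (by rw [muls_length])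
  have l6 : 10 + 7 * k + (pow (10 + 7 * k)).length = 15 + 7 * k := by
    change 10 + 7 * k + 5 = _
    ring
  have l7 : 15 + 7 * k + (cnt (15 + 7 * k)).length = 18 + 7 * k := by
    change 15 + 7 * k + 3 = _
    ring
  have l8 : 18 + 7 * k + ([.add 6 6 1] : List Ins).length = 19 + 7 * k := by
    change 18 + 7 * k + 1 = _
    ring
  have H6 := H5.right' l6
  have H7 := H6.right' l7
  have H8 := H7.right' l8
  refine ⟨H8, ?_⟩
  set L := 1 + Nat.size x.length with hL
  set V := D * L ^ k with hV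
  have hLk : 1 ≤ L ^ k := Nat.one_le_pow _ _ (by omega)
  have b1 : x.length < 2 ^ S := lt_of_lt_of_le (Nat.lt_size_self _)
    (Nat.pow_le_pow_right (by norm_num) (by omega))
  have b2 : L < 2 ^ S := lt_of_lt_of_le (Nat.lt_two_pow_self)
    (Nat.pow_le_pow_right (by norm_num) (by omega))
  have b3 : V < 2 ^ S := lt_of_lt_of_le (Nat.lt_two_pow_self)
    (Nat.pow_le_pow_right (by norm_num) (by omega))
  have b4 : D < 2 ^ S := lt_of_le_of_lt (Nat.le_mul_of_pos_right _ hLk) b3
  have b5 : 2 ^ V < 2 ^ S := Nat.pow_lt_pow_right (by norm_num) (by omega)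
  have b6 : 1 < 2 ^ S := Nat.one_lt_two_pow (by omega)
  have b0 := Nat.two_pow_pos S
  have b7 : 2 ^ V + x.length < 2 ^ S := by
    have e1 : 2 ^ V ≤ 2 ^ (V + Nat.size x.length) :=
      Nat.pow_le_pow_right (by norm_num) (by omega)
    have e2 : x.length < 2 ^ (V + Nat.size x.length) := lt_of_lt_of_le (Nat.lt_size_self _)
      (Nat.pow_le_pow_right (by norm_num) (by omega))
    have e3 : 2 ^ (V + Nat.size x.length + 1) ≤ 2 ^ S :=
      Nat.pow_le_pow_right (by norm_num) (by omega)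
    rw [pow_succ] at e3
    omega
  have hz : (fun _ : ℕ => 0) = Rg 0 0 0 0 0 0 0 := by
    funext r
    match r with
    | 0 | 1 | 2 | 3 | 4 | 5 | 6 | 7 => rfl
    | r + 8 => rfl
  have r0 : Rn P A x S (⟨0, fun _ => 0⟩, []) (⟨1, Rg 0 0 0 0 0 0 1⟩, []) := by
    refine Rn.one' H0.head ?_ (bd_Rg.2 ⟨b0, b0, b0, b0, b0, b0, b6⟩)
    rw [hz]
    simp only [Ins.exec, up7]
  have r1 := run_cnt (A := A) (q := []) H1.left b1 x.length (Nat.zero_add _)
    (show Bd S (Rg 0 0 0 0 0 0 1) from bd_Rg.2 ⟨b0, b0, b0, b0, b0, b0, b6⟩)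
  have r2 := run_siz (A := A) (x := x) (q := []) H2.left b1 b2
    (show Bd S (Rg x.length 0 0 0 0 0 1) from bd_Rg.2 ⟨b1, b0, b0, b0, b0, b0, b6⟩)
  have r3 : Rn P A x S (⟨9, Rg 0 L 0 0 0 0 1⟩, []) (⟨10, Rg 0 L D 0 0 0 1⟩, []) := by
    refine Rn.one' H3.head ?_ (bd_Rg.2 ⟨b0, b2, b4, b0, b0, b0, b6⟩)
    simp only [Ins.exec, up3]
  obtain ⟨t, c, ht, hc, r4⟩ := run_muls (A := A) (x := x) (q := []) k H4.left (M := D) (L := L)
    b3 (by omega) b0 (show Bd S (Rg 0 L D 0 0 0 1) from bd_Rg.2 ⟨b0, b2, b4, b0, b0, b0, b6⟩)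
  have r5 := run_pow (A := A) (x := x) (q := []) H5.left b5 b6
    (show Bd S (Rg 0 L V t c 0 1) from bd_Rg.2 ⟨b0, b2, b3, ht, hc, b0, b6⟩)
  have r6 := run_cnt (A := A) (q := []) H6.left b1 x.length (Nat.zero_add _)
    (show Bd S (Rg 0 L 0 t c (2 ^ V) 1) from bd_Rg.2 ⟨b0, b2, b0, ht, hc, b5, b6⟩)
  have hb8 : Bd S (Rg x.length L 0 t c (2 ^ V + x.length) 1) :=
    bd_Rg.2 ⟨b1, b2, b0, ht, hc, b7, b6⟩
  have r7 : Rn P A x S (⟨18 + 7 * k, Rg x.length L 0 t c (2 ^ V) 1⟩, [])
      (⟨19 + 7 * k, Rg x.length L 0 t c (2 ^ V + x.length) 1⟩, []) := by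
    refine Rn.one' H7.head ?_ hb8
    simp only [Ins.exec, up6]
    have e9 : 18 + 7 * k + 1 = 19 + 7 * k := by ring
    rw [e9]
    rfl
  rw [show 10 + 7 * k + 5 = 15 + 7 * k by ring] at r5
  rw [show 15 + 7 * k + 3 = 18 + 7 * k by ring] at r6
  refine ⟨_, r0.trans (r1.trans (r2.trans (r3.trans (r4.trans (r5.trans (r6.trans r7)))))),
    ⟨fun r => rfl, ?_⟩, hb8⟩
  change 2 ^ V + x.length = _
  rw [hV, hL, Nat.add_comm 1, Nat.add_comm]

theorem p_sim : P_sim := by
  intro k D c hk P hg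
  refine ⟨pro k D (body (19 + 7 * k) P), (c + 1) * (D * 2 ^ k + D + 4) + c,
    fun l => guess_notMem_pro k D l _ (guess_notMem_body _ l P), fun A x b hin hh => ?_⟩
  set s := Nat.size x.length with hs
  set V := D * (1 + s) ^ k with hV
  set S := (c + 1) * (V + s + 3) + c with hS
  have hle : V + s + 3 ≤ (c + 1) * (V + s + 3) := Nat.le_mul_of_pos_left _ (by omega)
  set P' := pro k D (body (19 + 7 * k) P) with hP'
  obtain ⟨hat, ρ, hrun, hsm, hbd⟩ := run_pro k D S A x _ P' hP'
    (show V + s + 2 ≤ S by omega)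
  have hlen : (padw k D x).length = x.length + 2 ^ (D * (Nat.size x.length + 1) ^ k) := by
    rw [padw, List.length_append, List.length_replicate]
  have hyl : (padw k D x).length < 2 ^ (V + s + 1) := by
    rw [hlen, ← hs, Nat.add_comm s 1, ← hV]
    have e1 : 2 ^ V ≤ 2 ^ (V + s) := Nat.pow_le_pow_right (by norm_num) (by omega)
    have e2 : x.length < 2 ^ (V + s) := lt_of_lt_of_le (Nat.lt_size_self _)
      (Nat.pow_le_pow_right (by norm_num) (by omega))
    rw [pow_succ]
    omega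
  have hsize : Nat.size (padw k D x).length ≤ V + s + 3 :=
    (Nat.size_le.2 hyl).trans (by omega)
  have hm : (padw k D x).length < 2 ^ S :=
    lt_of_lt_of_le hyl (Nat.pow_le_pow_right (by norm_num) (by omega))
  have hy : ∀ i, (padw k D x).getD i false = x.getD i false := by
    intro i
    rw [padw]
    by_cases hi : i < x.length
    · rw [List.getD_append _ _ _ _ hi]
    · rw [List.getD_append_right _ _ _ _ (by omega), List.getD_eq_default x _ (by omega)]
      simp only [List.getD_eq_getElem?_getD, List.getElem?_replicate]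
      split <;> rfl
  have hin' : ∀ d, Reach P A (padw k D x) [] d → Bd S d.1.reg := by
    intro d hd r
    rw [← Nat.size_le]
    refine (hin d hd r).trans ?_
    have : c * Nat.size (padw k D x).length ≤ c * (V + s + 3) := Nat.mul_le_mul_left c hsize
    rw [hS, Nat.add_mul]
    omega
  rw [← hlen] at hsm
  obtain ⟨d, hd, hdb⟩ := hh
  obtain ⟨ρ', h1, h2, h3⟩ := sim_run (x := x) hat hg hy hm hin' hd hsm hbd
  have hfull := hrun.trans h1
  have hend : P'[19 + 7 * k + 2 * d.1.pc]? = some (Ins.halt b) := (line hat hdb).1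
  refine ⟨fun d' hd' r => ?_, halts_of_run hfull hend⟩
  have h4 := bounded_of_run (fun l => guess_notMem_pro k D l _ (guess_notMem_body _ l P)) hfull
    (fun _ => Nat.two_pow_pos _) hend hd' r
  refine (Nat.size_le.2 h4).trans ?_
  rcases Nat.eq_zero_or_pos s with h0 | h0
  · have e : V = D := by rw [hV, h0]; simp
    have e2 : (c + 1) * (D + 0 + 3) ≤ (c + 1) * (D * 2 ^ k + D + 4) :=
      Nat.mul_le_mul_left _ (by omega)
    rw [hS, e, h0]
    omega
  · have h2 : (1 + s) ^ k ≤ 2 ^ k * s ^ k := by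
      rw [← mul_pow]
      exact Nat.pow_le_pow_left (by omega) k
    have h3 : s ≤ s ^ k := Nat.le_self_pow (by omega) s
    have h4 : V ≤ D * 2 ^ k * s ^ k := by
      rw [hV, mul_assoc]
      exact Nat.mul_le_mul_left D h2
    have h5 : V + s + 3 ≤ (D * 2 ^ k + D + 4) * s ^ k + 3 := by
      have : (D * 2 ^ k + D + 4) * s ^ k = D * 2 ^ k * s ^ k + D * s ^ k + 4 * s ^ k := by ring
      rw [this]
      omega
    calc S ≤ (c + 1) * ((D * 2 ^ k + D + 4) * s ^ k + 3) + c := by
          rw [hS]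
          exact Nat.add_le_add_right (Nat.mul_le_mul_left _ h5) _
      _ = (c + 1) * (D * 2 ^ k + D + 4) * s ^ k + ((c + 1) * 3 + c) := by ring
      _ ≤ ((c + 1) * (D * 2 ^ k + D + 4) + c) * s ^ k +
          ((c + 1) * (D * 2 ^ k + D + 4) + c) := by
        have e3 : (c + 1) * 3 ≤ (c + 1) * (D * 2 ^ k + D + 4) := Nat.mul_le_mul_left _ (by omega)
        rw [Nat.add_mul _ c]
        omega

end Pool.Agent.W2helper93.DL
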